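import Mathlib

set_option autoImplicit false
open Filter Topology MeasureTheory

namespace Pool.Agent.Results.MP_aa337a_pr.CesaroLower

/-- The 2d unit steps of the lattice, indexed by a coordinate and a sign. -/
def step {d : ℕ} (s : Fin d × Bool) : Fin d → ℤ := Pi.single s.1 (if s.2 then 1 else -1)

/-- Number of visits of the path p to the site x up to time n. -/
def visits {d : ℕ} (p : ℕ → Fin d → ℤ) (n : ℕ) (x : Fin d → ℤ) : ℕ :=
  ((Finset.range (n + 1)).filter (fun k => p k = x)).card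

/-- Probability of the step s at time n, given the path p up to time n. -/
noncomputable def stepProb {d : ℕ} (β : ℝ) (p : ℕ → Fin d → ℤ) (n : ℕ) (s : Fin d × Bool) : ℝ :=
  Real.exp (-β * visits p n (p n + step s)) /
    ∑ s' : Fin d × Bool, Real.exp (-β * visits p n (p n + step s'))

/-- X is the true self-avoiding walk with parameter β on the d-dimensional lattice. -/
structure IsTrueSAW {d : ℕ} {Ω : Type*} [MeasurableSpace Ω] (P : Measure Ω) (β : ℝ)
    (X : ℕ → Ω → (Fin d → ℤ)) : Prop where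
  meas : ∀ n, Measurable (X n)
  start : ∀ᵐ ω ∂P, X 0 ω = 0
  next : ∀ (n : ℕ) (p : ℕ → Fin d → ℤ) (s : Fin d × Bool),
    P.real {ω | (∀ k ≤ n, X k ω = p k) ∧ X (n + 1) ω = p n + step s} =
      stepProb β p n s * P.real {ω | ∀ k ≤ n, X k ω = p k}

/-- Square of the Euclidean norm. -/
noncomputable def sqNorm {d : ℕ} (x : Fin d → ℤ) : ℝ := ∑ j, ((x j : ℝ)) ^ 2

section deterministic

variable {d : ℕ}

lemma step_ne_zero (s : Fin d × Bool) : step s ≠ 0 := by
  intro h
  have := congrFun h s.1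
  simp only [step, Pi.single_eq_same, Pi.zero_apply] at this
  cases hb : s.2 <;> simp [hb] at this

/-- reversed step -/
def rev : (Fin d × Bool) ≃ (Fin d × Bool) := (Equiv.refl _).prodCongr Equiv.boolNot

lemma step_rev (s : Fin d × Bool) : step (rev s) = - step s := by
  funext j
  obtain ⟨i, b⟩ := s
  simp only [step, rev, Equiv.prodCongr_apply, Prod.map, Equiv.refl_apply, Equiv.boolNot_apply,
    Pi.neg_apply]
  by_cases hj : j = i
  · subst hj; cases b <;> simp
  · simp [Pi.single_eq_of_ne hj]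

lemma visits_succ (p : ℕ → Fin d → ℤ) (n : ℕ) (x : Fin d → ℤ) :
    visits p (n + 1) x = visits p n x + if p (n + 1) = x then 1 else 0 := by
  unfold visits
  rw [Finset.range_add_one (n := n + 1), Finset.filter_insert]
  split_ifs with h
  · rw [Finset.card_insert_of_notMem]
    simp
  · simp

lemma visits_congr {p q : ℕ → Fin d → ℤ} {n : ℕ} (h : ∀ k ≤ n, p k = q k) (x : Fin d → ℤ) :
    visits p n x = visits q n x := by
  unfold visits
  congr 1
  apply Finset.filter_congr
  intro k hk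
  rw [h k (by simpa [Nat.lt_succ_iff] using hk)]

/-- sum of the visits to the neighbours of y -/
def nb (p : ℕ → Fin d → ℤ) (n : ℕ) (y : Fin d → ℤ) : ℝ := ∑ s, (visits p n (y + step s) : ℝ)

lemma nb_sub (p : ℕ → Fin d → ℤ) (n : ℕ) (y : Fin d → ℤ) :
    ∑ s, (visits p n (y - step s) : ℝ) = nb p n y := by
  unfold nb
  rw [← Equiv.sum_comp rev]
  apply Finset.sum_congr rfl
  intro s _
  rw [step_rev, sub_neg_eq_add]

/-- sum of squares of visits -/
def Phi (p : ℕ → Fin d → ℤ) (n : ℕ) : ℝ := ∑ k ∈ Finset.range (n + 1), (visits p n (p k) : ℝ)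

/-- pair interaction -/
def Psi (p : ℕ → Fin d → ℤ) (n : ℕ) : ℝ := ∑ k ∈ Finset.range (n + 1), nb p n (p k)

lemma visits_eq_sum (p : ℕ → Fin d → ℤ) (n : ℕ) (x : Fin d → ℤ) :
    (visits p n x : ℝ) = ∑ k ∈ Finset.range (n + 1), if p k = x then (1 : ℝ) else 0 := by
  unfold visits
  rw [Finset.card_filter]
  push_cast
  rfl

lemma Phi_succ (p : ℕ → Fin d → ℤ) (n : ℕ) :
    Phi p (n + 1) = Phi p n + 1 + 2 * (visits p n (p (n + 1)) : ℝ) := by
  unfold Phi
  rw [Finset.sum_range_succ _ (n + 1)]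
  simp only [visits_succ]
  push_cast
  rw [Finset.sum_add_distrib]
  have h1 : ∑ x ∈ Finset.range (n + 1), (if p (n + 1) = p x then (1 : ℝ) else 0) =
      visits p n (p (n + 1)) := by
    rw [visits_eq_sum]
    apply Finset.sum_congr rfl
    intro k _
    simp [eq_comm]
  rw [h1]
  ring_nf

lemma nb_succ (p : ℕ → Fin d → ℤ) (n : ℕ) (y : Fin d → ℤ) :
    nb p (n + 1) y = nb p n y + ∑ s : Fin d × Bool, if p (n + 1) = y + step s then (1 : ℝ) else 0 := by
  unfold nb
  rw [← Finset.sum_add_distrib]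
  apply Finset.sum_congr rfl
  intro s _
  rw [visits_succ]
  push_cast
  rfl

lemma nb_succ_self (p : ℕ → Fin d → ℤ) (n : ℕ) :
    nb p (n + 1) (p (n + 1)) = nb p n (p (n + 1)) := by
  rw [nb_succ]
  have : ∑ s : Fin d × Bool, (if p (n + 1) = p (n + 1) + step s then (1 : ℝ) else 0) = 0 := by
    apply Finset.sum_eq_zero
    intro s _
    rw [if_neg]
    intro h
    exact step_ne_zero s (by simpa using h.symm)
  rw [this, add_zero]

lemma Psi_succ (p : ℕ → Fin d → ℤ) (n : ℕ) :
    Psi p (n + 1) = Psi p n + 2 * nb p (n + 1) (p (n + 1)) := by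
  unfold Psi
  rw [Finset.sum_range_succ _ (n + 1)]
  have h1 : ∑ k ∈ Finset.range (n + 1), nb p (n + 1) (p k) =
      ∑ k ∈ Finset.range (n + 1), nb p n (p k) + nb p n (p (n + 1)) := by
    simp only [nb_succ]
    rw [Finset.sum_add_distrib]
    congr 1
    rw [Finset.sum_comm, ← nb_sub]
    apply Finset.sum_congr rfl
    intro s _
    rw [visits_eq_sum]
    apply Finset.sum_congr rfl
    intro k _
    congr 1
    rw [eq_sub_iff_add_eq]
    exact propext ⟨Eq.symm, Eq.symm⟩
  rw [h1, nb_succ_self]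
  ring


lemma tsum_visits_mul (p : ℕ → Fin d → ℤ) (n : ℕ) (g : (Fin d → ℤ) → ℝ) :
    HasSum (fun x => (visits p n x : ℝ) * g x) (∑ k ∈ Finset.range (n + 1), g (p k)) := by
  have h1 : (fun x => (visits p n x : ℝ) * g x) =
      fun x => ∑ k ∈ Finset.range (n + 1), (if p k = x then g x else 0) := by
    funext x
    rw [visits_eq_sum, Finset.sum_mul]
    apply Finset.sum_congr rfl
    intro k _
    split_ifs <;> simp
  rw [h1]
  apply hasSum_sum
  intro k _
  have h2 := hasSum_ite_eq (p k) (g (p k))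
  convert h2 using 1
  funext x
  by_cases hx : x = p k
  · subst hx; simp
  · rw [if_neg (fun h => hx h.symm), if_neg hx]

lemma dirichlet_hasSum (p : ℕ → Fin d → ℤ) (n : ℕ) (s : Fin d × Bool) :
    HasSum (fun x => ((visits p n (x + step s) : ℝ) - visits p n x) ^ 2)
      (2 * Phi p n - 2 * ∑ k ∈ Finset.range (n + 1), (visits p n (p k + step s) : ℝ)) := by
  have h1 := tsum_visits_mul p n (fun x => (visits p n x : ℝ))
  have h2 := tsum_visits_mul p n (fun x => (visits p n (x + step s) : ℝ))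
  have h3 : HasSum (fun x => (visits p n (x + step s) : ℝ) * (visits p n (x + step s) : ℝ))
      (Phi p n) := by
    have := (Equiv.addRight (step s)).hasSum_iff (f := fun x => (visits p n x : ℝ) * (visits p n x : ℝ))
      (a := Phi p n)
    exact this.mpr h1
  have h4 := (h1.add h3).sub (h2.mul_left 2)
  have hf : (fun x => ((visits p n (x + step s) : ℝ) - visits p n x) ^ 2) =
      fun x => (visits p n x : ℝ) * (visits p n x : ℝ) +
        (visits p n (x + step s) : ℝ) * (visits p n (x + step s) : ℝ) -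
        2 * ((visits p n x : ℝ) * (visits p n (x + step s) : ℝ)) := by
    funext x; ring
  have hv : 2 * Phi p n - 2 * ∑ k ∈ Finset.range (n + 1), (visits p n (p k + step s) : ℝ) =
      ∑ k ∈ Finset.range (n + 1), (visits p n (p k) : ℝ) + Phi p n -
      2 * ∑ k ∈ Finset.range (n + 1), (visits p n (p k + step s) : ℝ) := by
    have : ∑ k ∈ Finset.range (n + 1), (visits p n (p k) : ℝ) = Phi p n := rfl
    rw [this]; ring
  rw [hf, hv]
  exact h4

/-- The quadratic form, in units where it is 2d times the Dirichlet form. -/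
def Q (p : ℕ → Fin d → ℤ) (n : ℕ) : ℝ := 2 * d * Phi p n - Psi p n

lemma dirichlet_le (p : ℕ → Fin d → ℤ) (n : ℕ) (s : Fin d × Bool) (F : Finset (Fin d → ℤ)) :
    ∑ x ∈ F, ((visits p n (x + step s) : ℝ) - visits p n x) ^ 2 ≤ Q p n := by
  set D : (Fin d × Bool) → ℝ := fun s =>
    2 * Phi p n - 2 * ∑ k ∈ Finset.range (n + 1), (visits p n (p k + step s) : ℝ) with hD
  have hD0 : ∀ s, 0 ≤ D s := fun s => (dirichlet_hasSum p n s).nonneg (fun x => sq_nonneg _)
  have hrev : D (rev s) = D s := by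
    have h1 := dirichlet_hasSum p n (rev s)
    have h2 := (Equiv.addRight (step s)).hasSum_iff
      (f := fun x => ((visits p n (x + step (rev s)) : ℝ) - visits p n x) ^ 2) (a := D (rev s))
    have h3 := h2.mpr h1
    have h4 := dirichlet_hasSum p n s
    have h5 : ((fun x => ((visits p n (x + step (rev s)) : ℝ) - visits p n x) ^ 2) ∘
        ⇑(Equiv.addRight (step s))) =
        (fun x => ((visits p n (x + step s) : ℝ) - visits p n x) ^ 2) := by
      funext x
      simp only [Function.comp, Equiv.coe_addRight, step_rev, add_neg_cancel_right]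
      ring
    rw [h5] at h3
    exact h3.unique h4
  have hsum : ∑ s, D s = 2 * Q p n := by
    simp only [hD]
    rw [Finset.sum_sub_distrib, Finset.sum_const, ← Finset.mul_sum, Finset.sum_comm]
    simp only [Finset.card_univ, Fintype.card_prod, Fintype.card_fin, Fintype.card_bool,
      nsmul_eq_mul]
    unfold Q Psi nb
    push_cast
    ring
  have hne : s ≠ rev s := by
    intro h
    have h1 := step_rev s
    rw [← h] at h1
    have h2 := congrFun h1 s.1
    simp only [step, Pi.single_eq_same, Pi.neg_apply] at h2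
    cases hb : s.2 <;> simp [hb] at h2
  have h2 : D s + D (rev s) ≤ ∑ s, D s := by
    rw [← Finset.sum_pair hne]
    apply Finset.sum_le_sum_of_subset_of_nonneg (Finset.subset_univ _)
    intro i _ _
    exact hD0 i
  have h3 : ∑ x ∈ F, ((visits p n (x + step s) : ℝ) - visits p n x) ^ 2 ≤ D s :=
    sum_le_hasSum F (fun x _ => sq_nonneg _) (dirichlet_hasSum p n s)
  linarith

/-- boxes -/
noncomputable def box (d R : ℕ) : Finset (Fin d → ℤ) :=
  Fintype.piFinset (fun _ => Finset.Icc (-(R : ℤ)) R)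

lemma mem_box {R : ℕ} {z : Fin d → ℤ} : z ∈ box d R ↔ ∀ j, |z j| ≤ R := by
  simp [box, Fintype.mem_piFinset, abs_le]

lemma card_box (R : ℕ) : (box d R).card = (2 * R + 1) ^ d := by
  simp only [box, Fintype.card_piFinset, Int.card_Icc, Finset.prod_const, Finset.card_univ,
    Fintype.card_fin]
  congr 1
  omega

/-- shifting a finite set -/
lemma shift_le (p : ℕ → Fin d → ℤ) (n : ℕ) (s : Fin d × Bool) (B : Finset (Fin d → ℤ)) (c : ℝ)
    (hc : 0 < c) (m : ℕ) :
    ∑ x ∈ B, (visits p n x : ℝ) - ∑ x ∈ B, (visits p n (x + m • step s) : ℝ) ≤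
      m * (c * B.card + Q p n / c) / 2 := by
  induction m with
  | zero => simp
  | succ m ih =>
    have h1 : ∑ x ∈ B, (visits p n (x + m • step s) : ℝ) -
        ∑ x ∈ B, (visits p n (x + (m + 1) • step s) : ℝ) ≤ (c * B.card + Q p n / c) / 2 := by
      rw [← Finset.sum_sub_distrib]
      have h2 : ∀ x ∈ B, (visits p n (x + m • step s) : ℝ) - (visits p n (x + (m + 1) • step s) : ℝ) ≤
          (c + ((visits p n (x + m • step s + step s) : ℝ) - visits p n (x + m • step s)) ^ 2 / c) / 2 := by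
        intro x _
        have e1 : x + (m + 1) • step s = x + m • step s + step s := by
          rw [add_smul, one_smul, add_assoc]
        rw [e1]
        set u : ℝ := (visits p n (x + m • step s + step s) : ℝ)
        set v : ℝ := (visits p n (x + m • step s) : ℝ)
        have h3 : 0 ≤ (c + (u - v)) ^ 2 / c := by positivity
        have h4 : (c + (u - v)) ^ 2 / c = c + 2 * (u - v) + (u - v) ^ 2 / c := by
          field_simp
          ring
        linarith
      refine (Finset.sum_le_sum h2).trans ?_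
      rw [← Finset.sum_div, Finset.sum_add_distrib, ← Finset.sum_div, Finset.sum_const,
        nsmul_eq_mul]
      have h5 : ∑ x ∈ B, ((visits p n (x + m • step s + step s) : ℝ) -
          visits p n (x + m • step s)) ^ 2 ≤ Q p n := by
        have h6 := dirichlet_le p n s (B.map (Equiv.addRight (m • step s)).toEmbedding)
        rw [Finset.sum_map] at h6
        simpa using h6
      have h7 := div_le_div_of_nonneg_right h5 hc.le
      linarith
    push_cast
    have : ((m : ℝ) + 1) * (c * B.card + Q p n / c) / 2 =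
        m * (c * B.card + Q p n / c) / 2 + (c * B.card + Q p n / c) / 2 := by ring
    rw [this]
    linarith

lemma sum_visits (p : ℕ → Fin d → ℤ) (n : ℕ) (B : Finset (Fin d → ℤ)) (v : Fin d → ℤ) :
    ∑ x ∈ B, (visits p n (x + v) : ℝ) =
      ∑ k ∈ Finset.range (n + 1), (if p k - v ∈ B then (1 : ℝ) else 0) := by
  simp only [visits_eq_sum]
  rw [Finset.sum_comm]
  apply Finset.sum_congr rfl
  intro k _
  rw [← Finset.sum_ite_eq' B (p k - v) (fun _ => (1 : ℝ))]
  apply Finset.sum_congr rfl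
  intro x _
  congr 1
  rw [eq_iff_iff]
  constructor
  · intro h; rw [h]; simp
  · intro h; rw [h]; simp

/-- deterministic occupation bound for a box -/
lemma occupation (i0 : Fin d) (p : ℕ → Fin d → ℤ) (n R : ℕ) :
    2 * ∑ k ∈ Finset.range (n + 1), (if p k ∈ box d R then (1 : ℝ) else 0) ≤
      (n + 1) + 2 * d * (2 * R + 1) ^ (d + 2) + Q p n / (8 * d) := by
  have hd : 0 < d := i0.pos
  have hd' : (0 : ℝ) < d := by exact_mod_cast hd
  have hm : (0 : ℝ) < 2 * R + 1 := by positivity
  have h1 := shift_le p n (i0, true) (box d R) (4 * d * (2 * R + 1)) (by positivity) (2 * R + 1)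
  have h2 := sum_visits p n (box d R) 0
  simp only [add_zero, sub_zero] at h2
  rw [h2, sum_visits p n (box d R) ((2 * R + 1) • step (i0, true)), card_box] at h1
  have h3 : ∑ k ∈ Finset.range (n + 1), (if p k ∈ box d R then (1 : ℝ) else 0) +
      ∑ k ∈ Finset.range (n + 1),
        (if p k - (2 * R + 1) • step (i0, true) ∈ box d R then (1 : ℝ) else 0) ≤ n + 1 := by
    rw [← Finset.sum_add_distrib]
    have : ∀ k ∈ Finset.range (n + 1), (if p k ∈ box d R then (1 : ℝ) else 0) +
        (if p k - (2 * R + 1) • step (i0, true) ∈ box d R then (1 : ℝ) else 0) ≤ 1 := by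
      intro k _
      by_cases ha : p k ∈ box d R
      · rw [if_pos ha, if_neg, add_zero]
        intro hb
        rw [mem_box] at ha hb
        have ha' := ha i0
        have hb' := hb i0
        have he : ((2 * R + 1) • (step (i0, true) : Fin d → ℤ)) i0 = 2 * (R : ℤ) + 1 := by
          rw [Pi.smul_apply]
          simp [step]
        rw [Pi.sub_apply, he] at hb'
        rw [abs_le] at ha' hb'
        omega
      · rw [if_neg ha, zero_add]
        split_ifs <;> norm_num
    refine (Finset.sum_le_sum this).trans ?_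
    simp
  have h4 : ((2 * R + 1 : ℕ) : ℝ) * (4 * d * (2 * R + 1) * ((2 * R + 1) ^ d : ℕ) +
      Q p n / (4 * d * (2 * R + 1))) / 2 = 2 * d * (2 * R + 1) ^ (d + 2) + Q p n / (8 * d) := by
    push_cast
    field_simp
    ring
  rw [h4] at h1
  linarith

end deterministic

section process

variable {d : ℕ}

/-- extension of a path by one step -/
def ext (p : ℕ → Fin d → ℤ) (n : ℕ) (s : Fin d × Bool) : ℕ → Fin d → ℤ :=
  fun k => if k ≤ n then p k else p n + step s

/-- expectation of f after j more steps, given the path p up to time n -/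
noncomputable def F (β : ℝ) : ℕ → ℕ → (ℕ → Fin d → ℤ) → ((ℕ → Fin d → ℤ) → ℝ) → ℝ
  | 0, _, p, f => f p
  | (j + 1), n, p, f => ∑ s : Fin d × Bool, stepProb β p n s * F β j (n + 1) (ext p n s) f

/-- functions of the path up to time n -/
def Adapted (n : ℕ) (f : (ℕ → Fin d → ℤ) → ℝ) : Prop :=
  ∀ p q : ℕ → Fin d → ℤ, (∀ k ≤ n, p k = q k) → f p = f q

lemma stepProb_nonneg (β : ℝ) (p : ℕ → Fin d → ℤ) (n : ℕ) (s : Fin d × Bool) :
    0 ≤ stepProb β p n s := by
  unfold stepProb
  positivity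

lemma stepProb_sum (i0 : Fin d) (β : ℝ) (p : ℕ → Fin d → ℤ) (n : ℕ) :
    ∑ s, stepProb β p n s = 1 := by
  unfold stepProb
  rw [← Finset.sum_div]
  apply div_self
  apply ne_of_gt
  apply Finset.sum_pos
  · intro i _; positivity
  · exact ⟨(i0, true), Finset.mem_univ _⟩

lemma stepProb_visits (i0 : Fin d) (β : ℝ) (hβ : 0 ≤ β) (p : ℕ → Fin d → ℤ) (n : ℕ) :
    2 * d * ∑ s, stepProb β p n s * (visits p n (p n + step s) : ℝ) ≤ nb p n (p n) := by
  have hanti : Antivary (fun s : Fin d × Bool => Real.exp (-β * visits p n (p n + step s)))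
      (fun s : Fin d × Bool => (visits p n (p n + step s) : ℝ)) := by
    intro s t hst
    apply Real.exp_le_exp.mpr
    have := mul_le_mul_of_nonneg_left hst.le hβ
    linarith
  have h1 := hanti.card_mul_sum_le_sum_mul_sum
  simp only [Fintype.card_prod, Fintype.card_fin, Fintype.card_bool] at h1
  have hpos : 0 < ∑ s' : Fin d × Bool, Real.exp (-β * visits p n (p n + step s')) := by
    apply Finset.sum_pos
    · intro i _; positivity
    · exact ⟨(i0, true), Finset.mem_univ _⟩
  have h2 : ∑ s, stepProb β p n s * (visits p n (p n + step s) : ℝ) =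
      (∑ s, Real.exp (-β * visits p n (p n + step s)) * (visits p n (p n + step s) : ℝ)) /
      ∑ s' : Fin d × Bool, Real.exp (-β * visits p n (p n + step s')) := by
    rw [Finset.sum_div]
    apply Finset.sum_congr rfl
    intro s _
    unfold stepProb
    ring
  rw [h2, ← mul_div_assoc, div_le_iff₀ hpos]
  unfold nb
  push_cast at h1
  calc _ = (d : ℝ) * 2 * ∑ s, Real.exp (-β * visits p n (p n + step s)) *
        (visits p n (p n + step s) : ℝ) := by ring
    _ ≤ _ := h1
    _ = _ := by ring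

/-- corrected energy -/
def Dn (n : ℕ) (p : ℕ → Fin d → ℤ) : ℝ := Q p n + 2 * nb p n (p n)

lemma ext_le (p : ℕ → Fin d → ℤ) (n : ℕ) (s : Fin d × Bool) {k : ℕ} (hk : k ≤ n) :
    ext p n s k = p k := by simp [ext, hk]

lemma ext_succ (p : ℕ → Fin d → ℤ) (n : ℕ) (s : Fin d × Bool) :
    ext p n s (n + 1) = p n + step s := by simp [ext]

lemma Phi_congr {p q : ℕ → Fin d → ℤ} {n : ℕ} (h : ∀ k ≤ n, p k = q k) : Phi p n = Phi q n := by
  unfold Phi
  apply Finset.sum_congr rfl
  intro k hk
  rw [h k (by simpa [Nat.lt_succ_iff] using hk), visits_congr h]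

lemma nb_congr {p q : ℕ → Fin d → ℤ} {n : ℕ} (h : ∀ k ≤ n, p k = q k) (y : Fin d → ℤ) :
    nb p n y = nb q n y := by
  unfold nb
  apply Finset.sum_congr rfl
  intro s _
  rw [visits_congr h]

lemma Psi_congr {p q : ℕ → Fin d → ℤ} {n : ℕ} (h : ∀ k ≤ n, p k = q k) : Psi p n = Psi q n := by
  unfold Psi
  apply Finset.sum_congr rfl
  intro k hk
  rw [h k (by simpa [Nat.lt_succ_iff] using hk), nb_congr h]

lemma Q_congr {p q : ℕ → Fin d → ℤ} {n : ℕ} (h : ∀ k ≤ n, p k = q k) : Q p n = Q q n := by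
  unfold Q
  rw [Phi_congr h, Psi_congr h]

lemma Dn_adapted (n : ℕ) : Adapted n (Dn (d := d) n) := by
  intro p q h
  unfold Dn
  rw [Q_congr h, nb_congr h, h n le_rfl]

lemma Dn_ext (n : ℕ) (p : ℕ → Fin d → ℤ) (s : Fin d × Bool) :
    Dn (n + 1) (ext p n s) = Q p n + 2 * d + 4 * d * (visits p n (p n + step s) : ℝ) := by
  have hc : ∀ k ≤ n, ext p n s k = p k := fun k hk => ext_le p n s hk
  unfold Dn
  have h1 : Q (ext p n s) (n + 1) = Q (ext p n s) n + 2 * d +
      4 * d * (visits (ext p n s) n (ext p n s (n + 1)) : ℝ) -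
      2 * nb (ext p n s) (n + 1) (ext p n s (n + 1)) := by
    unfold Q
    rw [Phi_succ, Psi_succ]
    ring
  rw [h1, Q_congr hc, visits_congr hc, ext_succ]
  ring

lemma Dn_step (i0 : Fin d) (β : ℝ) (hβ : 0 ≤ β) (n : ℕ) (p : ℕ → Fin d → ℤ) :
    ∑ s, stepProb β p n s * Dn (n + 1) (ext p n s) ≤ Dn n p + 2 * d := by
  simp only [Dn_ext]
  have h1 : ∑ s, stepProb β p n s * (Q p n + 2 * d + 4 * d * (visits p n (p n + step s) : ℝ)) =
      (Q p n + 2 * d) * ∑ s, stepProb β p n s +
        2 * (2 * d * ∑ s, stepProb β p n s * (visits p n (p n + step s) : ℝ)) := by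
    rw [Finset.mul_sum, Finset.mul_sum, Finset.mul_sum, ← Finset.sum_add_distrib]
    apply Finset.sum_congr rfl
    intro s _
    ring
  rw [h1, stepProb_sum i0, mul_one]
  have h2 := stepProb_visits i0 β hβ p n
  unfold Dn
  linarith

lemma F_Dn (i0 : Fin d) (β : ℝ) (hβ : 0 ≤ β) (j : ℕ) : ∀ (n : ℕ) (p : ℕ → Fin d → ℤ),
    F β j n p (Dn (n + j)) ≤ Dn n p + 2 * d * j := by
  induction j with
  | zero => intro n p; simp [F]
  | succ j ih =>
    intro n p
    simp only [F]
    have h1 : ∀ s : Fin d × Bool, F β j (n + 1) (ext p n s) (Dn (n + (j + 1))) ≤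
        Dn (n + 1) (ext p n s) + 2 * d * j := by
      intro s
      have := ih (n + 1) (ext p n s)
      rwa [show n + 1 + j = n + (j + 1) by ring] at this
    calc _ ≤ ∑ s, stepProb β p n s * (Dn (n + 1) (ext p n s) + 2 * d * j) := by
          apply Finset.sum_le_sum
          intro s _
          exact mul_le_mul_of_nonneg_left (h1 s) (stepProb_nonneg _ _ _ _)
      _ = ∑ s, stepProb β p n s * Dn (n + 1) (ext p n s) +
          (∑ s, stepProb β p n s) * (2 * d * j) := by
          rw [Finset.sum_mul, ← Finset.sum_add_distrib]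
          apply Finset.sum_congr rfl
          intro s _
          ring
      _ ≤ _ := by
          rw [stepProb_sum i0]
          have := Dn_step i0 β hβ n p
          push_cast
          linarith

variable {Ω : Type*} [MeasurableSpace Ω] {P : Measure Ω} {β : ℝ} {X : ℕ → Ω → (Fin d → ℤ)}

lemma A_meas (h : IsTrueSAW P β X) (n : ℕ) (p : ℕ → Fin d → ℤ) :
    MeasurableSet {ω | ∀ k ≤ n, X k ω = p k} := by
  have : {ω | ∀ k ≤ n, X k ω = p k} = ⋂ k ∈ Set.Iic n, X k ⁻¹' {p k} := by
    ext ω; simp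
  rw [this]
  apply MeasurableSet.biInter (Set.to_countable _)
  intro k _
  exact h.meas k (measurableSet_singleton _)

lemma main_int [IsProbabilityMeasure P] (i0 : Fin d) (h : IsTrueSAW P β X)
    (f : (ℕ → Fin d → ℤ) → ℝ) (j : ℕ) : ∀ (n : ℕ) (p : ℕ → Fin d → ℤ), Adapted (n + j) f →
    IntegrableOn (fun ω => f (fun k => X k ω)) {ω | ∀ k ≤ n, X k ω = p k} P ∧
    ∫ ω in {ω | ∀ k ≤ n, X k ω = p k}, f (fun k => X k ω) ∂P =
      P.real {ω | ∀ k ≤ n, X k ω = p k} * F β j n p f := by
  induction j with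
  | zero =>
    intro n p hf
    have hm := A_meas h n p
    have hconst : ∀ ω ∈ {ω | ∀ k ≤ n, X k ω = p k}, f (fun k => X k ω) = f p := by
      intro ω hω
      exact hf _ _ (by simpa using hω)
    constructor
    · refine IntegrableOn.congr_fun (f := fun _ => f p) ?_ (fun ω hω => (hconst ω hω).symm) hm
      exact integrableOn_const
    · rw [setIntegral_congr_fun hm hconst]
      simp [F]
  | succ j ih =>
    intro n p hf
    have hm := A_meas h n p
    have hAs : ∀ s, {ω | ∀ k ≤ n + 1, X k ω = ext p n s k} =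
        {ω | (∀ k ≤ n, X k ω = p k) ∧ X (n + 1) ω = p n + step s} := by
      intro s
      ext ω
      simp only [Set.mem_ofPred_eq]
      constructor
      · intro hω
        refine ⟨fun k hk => ?_, ?_⟩
        · rw [hω k (by omega), ext_le p n s hk]
        · rw [hω (n + 1) le_rfl, ext_succ]
      · rintro ⟨h1, h2⟩ k hk
        rcases Nat.lt_or_ge n k with hk' | hk'
        · have : k = n + 1 := by omega
          subst this
          rw [h2, ext_succ]
        · rw [h1 k hk', ext_le p n s hk']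
    have hih := fun s => ih (n + 1) (ext p n s) (by rwa [show n + 1 + j = n + (j + 1) by ring])
    have hP : ∀ s, P.real {ω | ∀ k ≤ n + 1, X k ω = ext p n s k} =
        stepProb β p n s * P.real {ω | ∀ k ≤ n, X k ω = p k} := by
      intro s
      rw [hAs s]
      exact h.next n p s
    set U : Set Ω := ⋃ s : Fin d × Bool, {ω | ∀ k ≤ n + 1, X k ω = ext p n s k} with hU
    have hms : ∀ s, MeasurableSet {ω | ∀ k ≤ n + 1, X k ω = ext p n s k} :=
      fun s => A_meas h (n + 1) (ext p n s)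
    have hdisj : Pairwise (Function.onFun Disjoint
        (fun s : Fin d × Bool => {ω | ∀ k ≤ n + 1, X k ω = ext p n s k})) := by
      intro s t hst
      simp only [Function.onFun]
      rw [hAs s, hAs t, Set.disjoint_left]
      rintro ω ⟨_, h1⟩ ⟨_, h2⟩
      apply hst
      have h3 : step s = step t := by
        have := h1.symm.trans h2
        simpa using this
      obtain ⟨i, b⟩ := s
      obtain ⟨i', b'⟩ := t
      have h4 := congrFun h3 i
      simp only [step, Pi.single_eq_same] at h4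
      by_cases hii : i = i'
      · subst hii
        simp only [Pi.single_eq_same] at h4
        cases b <;> cases b' <;> simp_all
      · rw [Pi.single_eq_of_ne hii] at h4
        cases b <;> simp at h4
    have hUsub : U ⊆ {ω | ∀ k ≤ n, X k ω = p k} := by
      intro ω hω
      rw [hU, Set.mem_iUnion] at hω
      obtain ⟨s, hs⟩ := hω
      rw [hAs s] at hs
      exact hs.1
    have hUm : MeasurableSet U := MeasurableSet.iUnion hms
    have hUP : P.real U = P.real {ω | ∀ k ≤ n, X k ω = p k} := by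
      rw [hU, measureReal_def, measure_iUnion hdisj hms, tsum_fintype,
        ENNReal.toReal_sum (fun s _ => measure_ne_top _ _)]
      have : ∑ s : Fin d × Bool, (P {ω | ∀ k ≤ n + 1, X k ω = ext p n s k}).toReal =
          ∑ s : Fin d × Bool, stepProb β p n s * P.real {ω | ∀ k ≤ n, X k ω = p k} :=
        Finset.sum_congr rfl (fun s _ => hP s)
      rw [this, ← Finset.sum_mul, stepProb_sum i0, one_mul]
    have hae : U =ᵐ[P] {ω | ∀ k ≤ n, X k ω = p k} := by
      apply ae_eq_of_subset_of_measure_ge hUsub _ hUm.nullMeasurableSet (measure_ne_top _ _)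
      rw [measureReal_def, measureReal_def] at hUP
      exact ((ENNReal.toReal_eq_toReal_iff' (measure_ne_top _ _) (measure_ne_top _ _)).mp hUP).ge
    have hintU : IntegrableOn (fun ω => f (fun k => X k ω)) U P := by
      rw [hU, integrableOn_finite_iUnion]
      exact fun s => (hih s).1
    constructor
    · exact hintU.congr_set_ae hae.symm
    · rw [← setIntegral_congr_set hae, hU, integral_iUnion_fintype hms hdisj (fun s => (hih s).1)]
      simp only [F]
      rw [Finset.mul_sum]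
      apply Finset.sum_congr rfl
      intro s _
      rw [(hih s).2, hP s]
      ring


lemma adapted_int [IsProbabilityMeasure P] (i0 : Fin d) (h : IsTrueSAW P β X)
    (f : (ℕ → Fin d → ℤ) → ℝ) (N : ℕ) (hf : Adapted N f) :
    Integrable (fun ω => f (fun k => X k ω)) P ∧
    ∫ ω, f (fun k => X k ω) ∂P = F β N 0 (fun _ => 0) f := by
  have h1 := main_int i0 h f N 0 (fun _ => 0) (by rwa [Nat.zero_add])
  have hae : {ω | ∀ k ≤ 0, X k ω = (fun _ => 0 : ℕ → Fin d → ℤ) k} =ᵐ[P] Set.univ := by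
    rw [eventuallyEq_univ]
    filter_upwards [h.start] with ω hω
    intro k hk
    have : k = 0 := by omega
    subst this
    exact hω
  have h2 : P.real {ω | ∀ k ≤ 0, X k ω = (fun _ => 0 : ℕ → Fin d → ℤ) k} = 1 := by
    rw [measureReal_def, measure_congr hae]
    simp
  constructor
  · have := h1.1.congr_set_ae hae.symm
    rwa [integrableOn_univ] at this
  · rw [← setIntegral_univ, ← setIntegral_congr_set hae, h1.2, h2, one_mul]

lemma Dn_zero (p : ℕ → Fin d → ℤ) : Dn 0 p = 2 * d := by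
  have h1 : visits p 0 (p 0) = 1 := by
    unfold visits
    rw [Nat.zero_add, Finset.range_one, Finset.filter_singleton, if_pos rfl,
      Finset.card_singleton]
  have h2 : nb p 0 (p 0) = 0 := by
    unfold nb
    apply Finset.sum_eq_zero
    intro s _
    have : visits p 0 (p 0 + step s) = 0 := by
      unfold visits
      rw [Finset.card_eq_zero, Finset.filter_eq_empty_iff]
      intro k hk hk'
      have : k = 0 := by simpa using hk
      subst this
      exact step_ne_zero s (by simpa using hk')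
    rw [this]; simp
  unfold Dn Q Phi Psi
  simp [h1, h2]

lemma nb_nonneg (p : ℕ → Fin d → ℤ) (n : ℕ) (y : Fin d → ℤ) : 0 ≤ nb p n y :=
  Finset.sum_nonneg (fun _ _ => by positivity)

lemma Q_adapted (n : ℕ) : Adapted n (fun p : ℕ → Fin d → ℤ => Q p n) := fun _ _ h => Q_congr h

lemma int_Q_le [IsProbabilityMeasure P] (i0 : Fin d) (hβ : 0 ≤ β) (h : IsTrueSAW P β X) (N : ℕ) :
    ∫ ω, Q (fun k => X k ω) N ∂P ≤ 2 * d * (N + 1) := by
  have h1 := adapted_int i0 h (Dn N) N (Dn_adapted N)
  have h2 := adapted_int i0 h (fun p => Q p N) N (Q_adapted N)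
  have h3 := F_Dn i0 β hβ N 0 (fun _ => 0)
  rw [Nat.zero_add, Dn_zero] at h3
  calc ∫ ω, Q (fun k => X k ω) N ∂P ≤ ∫ ω, Dn N (fun k => X k ω) ∂P := by
        apply integral_mono h2.1 h1.1
        intro ω
        simp only [Dn]
        have := nb_nonneg (fun k => X k ω) N (X N ω)
        linarith
    _ ≤ _ := by rw [h1.2]; linarith

lemma sqNorm_nonneg (x : Fin d → ℤ) : 0 ≤ sqNorm x := Finset.sum_nonneg (fun _ _ => sq_nonneg _)

lemma sqNorm_ge {R : ℕ} {x : Fin d → ℤ} (hx : x ∉ box d R) : ((R : ℝ) + 1) ^ 2 ≤ sqNorm x := by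
  rw [mem_box] at hx
  push Not at hx
  obtain ⟨j, hj⟩ := hx
  have h1 : (R : ℤ) + 1 ≤ |x j| := by omega
  have h2 : (R : ℝ) + 1 ≤ |(x j : ℝ)| := by exact_mod_cast h1
  calc ((R : ℝ) + 1) ^ 2 ≤ |(x j : ℝ)| ^ 2 := pow_le_pow_left₀ (by positivity) h2 2
    _ = ((x j : ℝ)) ^ 2 := sq_abs _
    _ ≤ _ := Finset.single_le_sum (f := fun j => ((x j : ℝ)) ^ 2) (fun _ _ => sq_nonneg _)
      (Finset.mem_univ j)

lemma box_bound [IsProbabilityMeasure P] (i0 : Fin d) (hβ : 0 ≤ β) (h : IsTrueSAW P β X)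
    (N R : ℕ) (hR : 8 * (d : ℝ) * (2 * R + 1) ^ (d + 2) ≤ N + 1) :
    ((R : ℝ) + 1) ^ 2 * (N + 1) / 4 ≤ ∑ n ∈ Finset.range (N + 1), ∫ ω, sqNorm (X n ω) ∂P := by
  have hd : 0 < d := i0.pos
  have hd' : (0 : ℝ) < d := by exact_mod_cast hd
  -- adapted functionals
  have hocc : Adapted N (fun p : ℕ → Fin d → ℤ =>
      ∑ k ∈ Finset.range (N + 1), (if p k ∈ box d R then (1 : ℝ) else 0)) := by
    intro p q hpq
    apply Finset.sum_congr rfl
    intro k hk
    rw [hpq k (by simpa [Nat.lt_succ_iff] using hk)]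
  have hsq : Adapted N (fun p : ℕ → Fin d → ℤ => ∑ k ∈ Finset.range (N + 1), sqNorm (p k)) := by
    intro p q hpq
    apply Finset.sum_congr rfl
    intro k hk
    rw [hpq k (by simpa [Nat.lt_succ_iff] using hk)]
  have iocc := (adapted_int i0 h _ N hocc).1
  have isq := (adapted_int i0 h _ N hsq).1
  have iQ := (adapted_int i0 h _ N (Q_adapted N)).1
  have hk : ∀ n ∈ Finset.range (N + 1), Integrable (fun ω => sqNorm (X n ω)) P := by
    intro n _
    exact (adapted_int i0 h (fun p => sqNorm (p n)) n (fun p q hpq => by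
      simp only; rw [hpq n le_rfl])).1
  rw [← integral_finsetSum _ hk]
  have hpt : ∀ ω, ((R : ℝ) + 1) ^ 2 * ((N + 1) - ((N + 1) + 2 * d * (2 * R + 1) ^ (d + 2) +
      Q (fun k => X k ω) N / (8 * d)) / 2) ≤ ∑ k ∈ Finset.range (N + 1), sqNorm (X k ω) := by
    intro ω
    have h1 := occupation i0 (fun k => X k ω) N R
    have h2 : ((R : ℝ) + 1) ^ 2 * ((N + 1) - ∑ k ∈ Finset.range (N + 1),
        (if X k ω ∈ box d R then (1 : ℝ) else 0)) ≤ ∑ k ∈ Finset.range (N + 1), sqNorm (X k ω) := by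
      have h3 : ((N : ℝ) + 1) = ∑ _k ∈ Finset.range (N + 1), (1 : ℝ) := by simp
      rw [h3, ← Finset.sum_sub_distrib, Finset.mul_sum]
      apply Finset.sum_le_sum
      intro k _
      split_ifs with hb
      · simp only [sub_self, mul_zero]; exact sqNorm_nonneg _
      · rw [sub_zero, mul_one]; exact sqNorm_ge hb
    refine le_trans ?_ h2
    apply mul_le_mul_of_nonneg_left _ (by positivity)
    linarith
  have hint : ∫ ω, ((R : ℝ) + 1) ^ 2 * ((N + 1) - ((N + 1) + 2 * d * (2 * R + 1) ^ (d + 2) +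
      Q (fun k => X k ω) N / (8 * d)) / 2) ∂P =
      ((R : ℝ) + 1) ^ 2 * ((N + 1) - ((N + 1) + 2 * d * (2 * R + 1) ^ (d + 2) +
      (∫ ω, Q (fun k => X k ω) N ∂P) / (8 * d)) / 2) := by
    rw [integral_const_mul]
    congr 1
    rw [integral_sub (integrable_const _)]
    · rw [integral_const, integral_div, integral_add (integrable_const _) (iQ.div_const _),
        integral_const, integral_div]
      simp
    · exact ((integrable_const _).add (iQ.div_const _)).div_const _
  have hmono := integral_mono (μ := P) (f := fun ω => ((R : ℝ) + 1) ^ 2 * ((N + 1) - ((N + 1) +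
      2 * d * (2 * R + 1) ^ (d + 2) + Q (fun k => X k ω) N / (8 * d)) / 2))
      (g := fun ω => ∑ k ∈ Finset.range (N + 1), sqNorm (X k ω))
      (((integrable_const _).sub
        (((integrable_const _).add (iQ.div_const _)).div_const _)).const_mul _) isq hpt
  rw [hint] at hmono
  refine le_trans ?_ hmono
  have hQ := int_Q_le i0 hβ h N
  have h5 : (∫ ω, Q (fun k => X k ω) N ∂P) / (8 * d) ≤ ((N : ℝ) + 1) / 4 := by
    rw [div_le_iff₀ (by positivity)]
    calc _ ≤ 2 * d * ((N : ℝ) + 1) := hQ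
      _ = _ := by ring
  have h6 : 2 * (d : ℝ) * (2 * R + 1) ^ (d + 2) ≤ ((N : ℝ) + 1) / 4 := by linarith
  have h7 : ((N : ℝ) + 1) / 4 ≤ ((N + 1) - ((N + 1) + 2 * d * (2 * R + 1) ^ (d + 2) +
      (∫ ω, Q (fun k => X k ω) N ∂P) / (8 * d)) / 2) := by linarith
  calc ((R : ℝ) + 1) ^ 2 * (N + 1) / 4 = ((R : ℝ) + 1) ^ 2 * (((N : ℝ) + 1) / 4) := by ring
    _ ≤ _ := mul_le_mul_of_nonneg_left h7 (by positivity)

end process

/-- Lower bounds for the mean square displacement of the true self-avoiding walk. -/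
theorem result (d : ℕ) (hd : 1 ≤ d) (β : ℝ) (hβ : 0 ≤ β) {Ω : Type*} [MeasurableSpace Ω]
    (P : Measure Ω) [IsProbabilityMeasure P] (X : ℕ → Ω → (Fin d → ℤ)) (h : IsTrueSAW P β X) :
    (∀ N : ℕ, 8 * d ≤ N + 1 → (1 / 36 : ℝ) * (((N : ℝ) + 1) / (8 * d)) ^ ((2 : ℝ) / (d + 2)) ≤
      (∑ n ∈ Finset.range (N + 1), ∫ ω, sqNorm (X n ω) ∂P) / (N + 1)) ∧
    (∀ a : ℝ, a < 2 / ((d : ℝ) + 2) →
      ∃ᶠ n : ℕ in atTop, a < Real.log (∫ ω, sqNorm (X n ω) ∂P) / Real.log n) := by
  have hd' : (0 : ℝ) < d := by exact_mod_cast hd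
  have i0 : Fin d := ⟨0, hd⟩
  have part1 : ∀ N : ℕ, 8 * d ≤ N + 1 →
      (1 / 36 : ℝ) * (((N : ℝ) + 1) / (8 * d)) ^ ((2 : ℝ) / (d + 2)) ≤
      (∑ n ∈ Finset.range (N + 1), ∫ ω, sqNorm (X n ω) ∂P) / (N + 1) := by
    intro N hN
    have hN' : 8 * (d : ℝ) ≤ N + 1 := by exact_mod_cast hN
    set y : ℝ := ((N : ℝ) + 1) / (8 * d) with hy
    have hy1 : 1 ≤ y := by rw [hy, one_le_div (by positivity)]; exact hN'
    set t : ℝ := y ^ ((1 : ℝ) / (d + 2)) with ht
    have ht1 : 1 ≤ t := Real.one_le_rpow hy1 (by positivity)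
    have ht2 : t ^ 2 = y ^ ((2 : ℝ) / (d + 2)) := by
      rw [ht, ← Real.rpow_natCast, ← Real.rpow_mul (by linarith)]
      congr 1
      push_cast
      ring
    have ht3 : t ^ (d + 2) = y := by
      rw [ht, ← Real.rpow_natCast, ← Real.rpow_mul (by linarith)]
      push_cast
      rw [one_div, inv_mul_cancel₀ (by positivity), Real.rpow_one]
    set R : ℕ := ⌊(t - 1) / 2⌋₊ with hR
    have hR1 : (R : ℝ) ≤ (t - 1) / 2 := Nat.floor_le (by linarith)
    have hR2 : (t - 1) / 2 < R + 1 := Nat.lt_floor_add_one _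
    have hR3 : t / 3 ≤ (R : ℝ) + 1 := by
      have : (0 : ℝ) ≤ R := by positivity
      rcases le_total t 3 with h3 | h3
      · linarith
      · linarith
    have hbox := box_bound i0 hβ h N R (by
      have h1 : (2 * (R : ℝ) + 1) ^ (d + 2) ≤ t ^ (d + 2) :=
        pow_le_pow_left₀ (by positivity) (by linarith) _
      rw [ht3] at h1
      calc 8 * (d : ℝ) * (2 * R + 1) ^ (d + 2) ≤ 8 * d * y :=
            mul_le_mul_of_nonneg_left h1 (by positivity)
        _ = N + 1 := by rw [hy]; field_simp)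
    rw [le_div_iff₀ (by positivity), ← ht2]
    refine le_trans ?_ hbox
    have h4 : (t / 3) ^ 2 ≤ ((R : ℝ) + 1) ^ 2 := pow_le_pow_left₀ (by positivity) hR3 2
    have h5 : (0 : ℝ) ≤ (N : ℝ) + 1 := by positivity
    nlinarith [mul_le_mul_of_nonneg_right h4 h5]
  refine ⟨part1, ?_⟩
  intro a ha
  rw [Filter.Frequently]
  intro hcon
  set b : ℝ := max a 0 with hb
  have hb0 : 0 ≤ b := le_max_right _ _
  have hb2 : b < 2 / ((d : ℝ) + 2) := max_lt ha (by positivity)
  have hle : ∀ᶠ n : ℕ in atTop, ∫ ω, sqNorm (X n ω) ∂P ≤ (n : ℝ) ^ b := by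
    filter_upwards [hcon, eventually_ge_atTop 2] with n hn hn2
    have hn2' : (2 : ℝ) ≤ n := by exact_mod_cast hn2
    have hlog : 0 < Real.log n := Real.log_pos (by linarith)
    rw [not_lt, div_le_iff₀ hlog] at hn
    have hnn : 0 ≤ ∫ ω, sqNorm (X n ω) ∂P := integral_nonneg (fun ω => sqNorm_nonneg _)
    rcases hnn.eq_or_lt with h0 | h0
    · rw [← h0]; positivity
    · rw [← Real.log_le_log_iff h0 (by positivity), Real.log_rpow (by linarith)]
      exact hn.trans (mul_le_mul_of_nonneg_right (le_max_left _ _) hlog.le)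
  obtain ⟨n0, hn0⟩ := hle.exists_forall_of_atTop
  set C : ℝ := ∑ n ∈ Finset.range n0, ∫ ω, sqNorm (X n ω) ∂P with hC
  have hC0 : 0 ≤ C := Finset.sum_nonneg (fun n _ => integral_nonneg (fun ω => sqNorm_nonneg _))
  have hup : ∀ N : ℕ, ∑ n ∈ Finset.range (N + 1), ∫ ω, sqNorm (X n ω) ∂P ≤
      C + (N + 1) * ((N : ℝ) + 1) ^ b := by
    intro N
    have h1 : ∀ n ∈ Finset.range (N + 1), ∫ ω, sqNorm (X n ω) ∂P ≤
        (if n < n0 then ∫ ω, sqNorm (X n ω) ∂P else 0) + ((N : ℝ) + 1) ^ b := by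
      intro n hn
      have hn' : (n : ℝ) ≤ (N : ℝ) + 1 := by
        have : n ≤ N + 1 := by have := Finset.mem_range.mp hn; omega
        exact_mod_cast this
      split_ifs with hlt
      · have : (0 : ℝ) ≤ ((N : ℝ) + 1) ^ b := by positivity
        linarith
      · rw [zero_add]
        exact (hn0 n (by omega)).trans (Real.rpow_le_rpow (by positivity) hn' hb0)
    refine (Finset.sum_le_sum h1).trans ?_
    rw [Finset.sum_add_distrib, Finset.sum_const, Finset.card_range, nsmul_eq_mul]
    push_cast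
    apply add_le_add _ le_rfl
    rw [← Finset.sum_filter, hC]
    apply Finset.sum_le_sum_of_subset_of_nonneg
    · intro n hn
      simp only [Finset.mem_filter, Finset.mem_range] at hn ⊢
      exact hn.2
    · intro n _ _
      exact integral_nonneg (fun ω => sqNorm_nonneg _)
  -- comparison of powers
  have hpos : 0 < 2 / ((d : ℝ) + 2) - b := by linarith
  have htend : Tendsto (fun N : ℕ => ((N : ℝ) + 1) ^ (2 / ((d : ℝ) + 2) - b)) atTop atTop := by
    apply (tendsto_rpow_atTop hpos).comp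
    exact tendsto_atTop_add_const_right _ _ tendsto_natCast_atTop_atTop
  set K : ℝ := 36 * (C + 1) * (8 * (d : ℝ)) ^ ((2 : ℝ) / (d + 2)) with hK
  obtain ⟨N, hN1, hN2⟩ := ((htend.eventually_gt_atTop K).and
    (eventually_ge_atTop (8 * d))).exists
  have h1 := part1 N (by omega)
  have hN0 : (0 : ℝ) < (N : ℝ) + 1 := by positivity
  rw [le_div_iff₀ hN0] at h1
  have h2 := h1.trans (hup N)
  have h3 : C + (N + 1) * ((N : ℝ) + 1) ^ b ≤ (C + 1) * ((N : ℝ) + 1) ^ b * (N + 1) := by
    have h4 : (1 : ℝ) ≤ ((N : ℝ) + 1) ^ b := Real.one_le_rpow (by linarith [(Nat.cast_nonneg N : (0:ℝ) ≤ N)]) hb0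
    have h5 : (1 : ℝ) ≤ (N : ℝ) + 1 := by linarith [(Nat.cast_nonneg N : (0:ℝ) ≤ N)]
    have h6 : (1 : ℝ) ≤ ((N : ℝ) + 1) ^ b * (N + 1) := by nlinarith
    nlinarith
  have h4 := h2.trans h3
  have h5 := le_of_mul_le_mul_right h4 hN0
  rw [Real.div_rpow hN0.le (by positivity)] at h5
  rw [Real.rpow_sub hN0, lt_div_iff₀ (by positivity)] at hN1
  have h8 : (0 : ℝ) < (8 * (d : ℝ)) ^ ((2 : ℝ) / (d + 2)) := by positivity
  have h7 : ((N : ℝ) + 1) ^ ((2 : ℝ) / (d + 2)) ≤ K * ((N : ℝ) + 1) ^ b := by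
    have := mul_le_mul_of_nonneg_right h5 h8.le
    have h9 : 1 / 36 * (((N : ℝ) + 1) ^ ((2 : ℝ) / (d + 2)) / (8 * (d : ℝ)) ^ ((2 : ℝ) / (d + 2))) *
        (8 * (d : ℝ)) ^ ((2 : ℝ) / (d + 2)) = ((N : ℝ) + 1) ^ ((2 : ℝ) / (d + 2)) / 36 := by
      field_simp
    rw [h9] at this
    rw [hK]
    linarith
  linarith

end Pool.Agent.Results.MP_aa337a_pr.CesaroLower
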